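import Pool.Agent.Work.MP_2738db_nt_ZZ.Interface

set_option autoImplicit false

namespace Pool.Agent.Work.MP_2738db_nt_ZZ.helper92

open Finset Polynomial

section
variable {q : ℕ} [Fact q.Prime]

/-- number of preimages of the `k`-th power map on nonzero elements -/
lemma card_powers (k : ℕ) (hk : 1 ≤ k) (S T : Finset (ZMod q)) (hS : ∀ z ∈ S, z ≠ 0)
    (hST : ∀ z ∈ S, z ^ k ∈ T) : S.card ≤ Nat.gcd k (q - 1) * T.card := by
  classical
  refine Finset.card_le_mul_card_image_of_maps_to hST _ ?_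
  intro w _
  have hn : 0 < Nat.gcd k (q - 1) := Nat.gcd_pos_of_pos_left _ hk
  rcases (S.filter (fun z => z ^ k = w)).eq_empty_or_nonempty with h | ⟨z0, h0⟩
  · rw [h]; simp
  · rw [Finset.mem_filter] at h0
    have hz0 : z0 ≠ 0 := hS z0 h0.1
    have hle : (nthRootsFinset (Nat.gcd k (q - 1)) (1 : ZMod q)).card ≤ Nat.gcd k (q - 1) := by
      rw [nthRootsFinset_def]
      exact (Multiset.toFinset_card_le _).trans (card_nthRoots _ _)
    refine le_trans ?_ hle
    refine Finset.card_le_card_of_injOn (fun z => z / z0) ?_ ?_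
    · intro z hz
      rw [Finset.mem_coe, Finset.mem_filter] at hz
      have hz1 : z ≠ 0 := hS z hz.1
      rw [Finset.mem_coe, mem_nthRootsFinset hn]
      refine pow_gcd_eq_one.2 ⟨?_, ?_⟩
      · show (z / z0) ^ k = 1
        rw [div_pow, hz.2, ← h0.2, div_self (pow_ne_zero _ hz0)]
      · exact ZMod.pow_card_sub_one_eq_one (div_ne_zero hz1 hz0)
    · intro z _ z' _ h
      have h' : z / z0 = z' / z0 := h
      field_simp at h'
      exact h'

/-- an involution with at most one fixed point -/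
lemma card_invol {α β : Type*} [DecidableEq α] [DecidableEq β] (P : α → β) (σ : α → α)
    (hPσ : ∀ y, P (σ y) = P y) (y0 : α) (hfix : ∀ y, σ y = y → y = y0)
    (U : Finset α) (T : Finset β) (hU : ∀ y, P y ∈ T → y ∈ U) (hT : ∀ w ∈ T, ∃ y, P y = w) :
    2 * T.card ≤ U.card + 1 := by
  classical
  have h1 : 2 * (T.erase (P y0)).card ≤ ((U.filter (fun y => P y ∈ T)).filter
      (fun y => P y ≠ P y0)).card := by
    refine Finset.mul_card_image_le_card_of_maps_to (f := P) ?_ 2 ?_
    · intro y hy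
      simp only [Finset.mem_filter] at hy
      exact Finset.mem_erase.2 ⟨hy.2, hy.1.2⟩
    · intro w hw
      rw [Finset.mem_erase] at hw
      obtain ⟨y, hy⟩ := hT w hw.2
      have hne : y ≠ σ y := by
        intro h
        have := hfix y h.symm
        rw [this] at hy
        exact hw.1 hy.symm
      have : ({y, σ y} : Finset α).card = 2 := Finset.card_pair hne
      rw [← this]
      apply Finset.card_le_card
      intro x hx
      rw [Finset.mem_insert, Finset.mem_singleton] at hx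
      simp only [Finset.mem_filter]
      have hPx : P x = w := by
        rcases hx with rfl | rfl
        · exact hy
        · rw [hPσ]; exact hy
      refine ⟨⟨⟨hU x ?_, ?_⟩, ?_⟩, hPx⟩
      · rw [hPx]; exact hw.2
      · rw [hPx]; exact hw.2
      · rw [hPx]; exact hw.1
  have h2 : ((U.filter (fun y => P y ∈ T)).filter (fun y => P y ≠ P y0)).card ≤ U.card :=
    Finset.card_le_card (fun x hx => by simp only [Finset.mem_filter] at hx; exact hx.1.1)
  by_cases h0 : P y0 ∈ T
  · have h3 : T.card = (T.erase (P y0)).card + 1 := (Finset.card_erase_add_one h0).symm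
    have h4 : ((U.filter (fun y => P y ∈ T)).filter (fun y => P y ≠ P y0)).card + 1 ≤ U.card := by
      have : insert y0 ((U.filter (fun y => P y ∈ T)).filter (fun y => P y ≠ P y0)) ⊆ U := by
        intro x hx
        rw [Finset.mem_insert] at hx
        rcases hx with rfl | hx
        · exact hU _ h0
        · simp only [Finset.mem_filter] at hx; exact hx.1.1
      have h5 := Finset.card_le_card this
      rwa [Finset.card_insert_of_notMem (by simp)] at h5
    omega
  · rw [Finset.erase_eq_of_notMem h0] at h1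
    omega

/-- the cofactor as a polynomial -/
noncomputable def PP (p : ℕ) (D a : ZMod q) : (ZMod q)[X] :=
  C ((a * D)⁻¹) * ((X + C D) ^ p - X ^ p)

lemma PP_eval (p : ℕ) (D a y : ZMod q) :
    (PP p D a).eval y = (a * D)⁻¹ * ((y + D) ^ p - y ^ p) := by
  simp [PP]

lemma PP_natDegree (p : ℕ) (D a : ZMod q) : (PP p D a).natDegree ≤ p := by
  unfold PP
  refine (natDegree_C_mul_le _ _).trans ?_
  refine (natDegree_sub_le _ _).trans ?_
  rw [natDegree_X_pow]
  refine max_le ?_ le_rfl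
  refine natDegree_pow_le.trans ?_
  rw [natDegree_X_add_C, mul_one]

lemma PP_coeff (p : ℕ) (D a : ZMod q) (hp : 1 ≤ p) :
    (PP p D a).coeff (p - 1) = (a * D)⁻¹ * (D * p) := by
  unfold PP
  rw [coeff_C_mul, coeff_sub, coeff_X_add_C_pow, coeff_X_pow, if_neg (by omega), sub_zero]
  have h1 : p - (p - 1) = 1 := by omega
  have h2 : p.choose (p - 1) = p := by
    obtain ⟨m, rfl⟩ : ∃ m, p = m + 1 := ⟨p - 1, by omega⟩
    simp
  rw [h1, h2, pow_one]

lemma PP_irred (p : ℕ) (D a : ZMod q) (hp : 3 ≤ p) (hD : D ≠ 0) (ha : a ≠ 0)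
    (hpq : (p : ZMod q) ≠ 0) :
    ∃ π : (ZMod q)[X], Irreducible π ∧ π ∣ PP p D a ∧ ¬ π ^ 2 ∣ PP p D a := by
  have hc : (a * D)⁻¹ ≠ 0 := inv_ne_zero (mul_ne_zero ha hD)
  have hcoef : (PP p D a).coeff (p - 1) ≠ 0 := by
    rw [PP_coeff p D a (by omega)]
    exact mul_ne_zero hc (mul_ne_zero hD hpq)
  have hne : PP p D a ≠ 0 := by
    intro h
    rw [h] at hcoef
    simp at hcoef
  have hnu : ¬ IsUnit (PP p D a) := by
    intro h
    have h1 := natDegree_eq_zero_of_isUnit h
    have h2 := le_natDegree_of_ne_zero hcoef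
    omega
  obtain ⟨π, hπ, hdvd⟩ := WfDvdMonoid.exists_irreducible_factor hnu hne
  refine ⟨π, hπ, hdvd, ?_⟩
  intro hsq
  -- F = (X + D)^p - X^p
  have hCu : IsUnit (C ((a * D)⁻¹) : (ZMod q)[X]) := isUnit_C.2 (isUnit_iff_ne_zero.2 hc)
  have hsqF : π ^ 2 ∣ (X + C D) ^ p - X ^ p := by
    unfold PP at hsq
    exact (hCu.dvd_mul_left).1 hsq
  have hF : π ∣ (X + C D) ^ p - X ^ p := (dvd_pow_self π two_ne_zero).trans hsqF
  have hder : π ∣ derivative ((X + C D) ^ p - X ^ p) := by
    obtain ⟨g, hg⟩ := hsqF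
    rw [hg, derivative_mul]
    refine dvd_add ?_ ?_
    · rw [derivative_pow]
      refine Dvd.dvd.mul_right ?_ _
      refine Dvd.dvd.mul_right ?_ _
      simp
    · exact Dvd.dvd.mul_right (dvd_pow_self π two_ne_zero) _
  have hder2 : derivative ((X + C D) ^ p - X ^ p) =
      C (p : ZMod q) * ((X + C D) ^ (p - 1) - X ^ (p - 1)) := by
    rw [derivative_sub, derivative_X_add_C_pow, derivative_X_pow]
    ring
  rw [hder2] at hder
  have hpu : IsUnit (C (p : ZMod q) : (ZMod q)[X]) := isUnit_C.2 (isUnit_iff_ne_zero.2 hpq)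
  have hG : π ∣ (X + C D) ^ (p - 1) - X ^ (p - 1) := (hpu.dvd_mul_left).1 hder
  have hkey : π ∣ C D * X ^ (p - 1) := by
    have : C D * X ^ (p - 1) = ((X + C D) ^ p - X ^ p) -
        (X + C D) * ((X + C D) ^ (p - 1) - X ^ (p - 1)) := by
      obtain ⟨m, rfl⟩ : ∃ m, p = m + 1 := ⟨p - 1, by omega⟩
      rw [Nat.add_sub_cancel]
      ring
    rw [this]
    exact dvd_sub hF (Dvd.dvd.mul_left hG _)
  have hDu : IsUnit (C D : (ZMod q)[X]) := isUnit_C.2 (isUnit_iff_ne_zero.2 hD)
  have hX : π ∣ X := hπ.prime.dvd_of_dvd_pow ((hDu.dvd_mul_left).1 hkey)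
  have hXD : π ∣ X + C D := by
    have h1 : π ∣ (X + C D) ^ p := by
      have := dvd_add hF (hX.trans (dvd_pow_self X (by omega : p ≠ 0)))
      simpa using this
    exact hπ.prime.dvd_of_dvd_pow h1
  have hCD : π ∣ C D := by
    have := dvd_sub hXD hX
    simpa using this
  exact hπ.not_isUnit (isUnit_of_dvd_unit hCD hDu)

end

/-- **NU** -/
theorem nu (hstp : Stmt_Stp) : Stmt_Nu := by
  classical
  obtain ⟨C, hC1, hC⟩ := hstp
  refine ⟨C + 2, by linarith, ?_⟩
  intro q p k a D hq hpp hp hk hqa hqD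
  have hqp : q.Prime := hq.out
  have hq2 : (2 : ZMod q) ≠ 0 := by
    intro h
    apply hqa
    have : ((2 : ℕ) : ZMod q) = 0 := by exact_mod_cast h
    rw [ZMod.natCast_eq_zero_iff] at this
    exact Dvd.dvd.mul_right (Dvd.dvd.mul_right this _) _
  have hqp0 : ((p : ℕ) : ZMod q) ≠ 0 := by
    intro h
    apply hqa
    rw [ZMod.natCast_eq_zero_iff] at h
    exact Dvd.dvd.mul_right (Dvd.dvd.mul_left h _) _
  have hqa0 : ((a : ℕ) : ZMod q) ≠ 0 := by
    intro h
    apply hqa
    rw [ZMod.natCast_eq_zero_iff] at h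
    exact Dvd.dvd.mul_left h _
  have hqD0 : ((D : ℤ) : ZMod q) ≠ 0 := by
    intro h
    apply hqD
    rwa [ZMod.intCast_zmod_eq_zero_iff_dvd] at h
  set E : ZMod q := (D : ZMod q) with hE
  set A : ZMod q := (a : ZMod q) with hA
  set n : ℕ := Nat.gcd k (q - 1) with hn
  have hn1 : 1 ≤ n := Nat.gcd_pos_of_pos_left _ hk
  have hnk : n ≤ k := Nat.gcd_le_left _ hk
  have hnq : n ∣ q - 1 := Nat.gcd_dvd_right _ _
  have hndk : n ∣ k := Nat.gcd_dvd_left _ _
  have hAE : A * E ≠ 0 := mul_ne_zero hqa0 hqD0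
  set f : (ZMod q)[X] := PP p E A with hf
  -- the sets
  set Z : Finset (ZMod q) := Finset.univ.filter
    (fun z => ∃ Y : ZMod q, (Y + E) ^ p - Y ^ p = A * E * z ^ k) with hZ
  have hZcard : Nat.card {z : ZMod q // ∃ Y : ZMod q, (Y + E) ^ p - Y ^ p = A * E * z ^ k} =
      Z.card := by
    rw [Nat.card_eq_fintype_card, Fintype.card_subtype]
  set U : Finset (ZMod q) := Finset.univ.filter
    (fun y => f.eval y ^ ((q - 1) / n) = 1) with hU
  have hUcard : Nat.card {y : ZMod q // f.eval y ^ ((q - 1) / n) = 1} = U.card := by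
    rw [Nat.card_eq_fintype_card, Fintype.card_subtype]
  set T : Finset (ZMod q) := Finset.univ.filter
    (fun w => w ^ ((q - 1) / n) = 1 ∧ ∃ y : ZMod q, f.eval y = w) with hT
  have hSTP := hC q n p f hn1 hnq (by omega) (PP_natDegree p E A)
    (PP_irred p E A hp hqD0 hqa0 hqp0)
  rw [hUcard] at hSTP
  -- step 1
  have h1 : (Z.erase 0).card ≤ n * T.card := by
    refine card_powers k hk _ _ (fun z hz => (Finset.mem_erase.1 hz).1) ?_
    intro z hz
    rw [Finset.mem_erase] at hz
    obtain ⟨hz0, hz1⟩ := hz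
    rw [hZ, Finset.mem_filter] at hz1
    obtain ⟨_, Y, hY⟩ := hz1
    rw [hT, Finset.mem_filter]
    refine ⟨Finset.mem_univ _, ?_, Y, ?_⟩
    · obtain ⟨j, hj⟩ := hndk
      rw [← pow_mul, hj, mul_comm n j, mul_assoc, Nat.mul_div_cancel' hnq, mul_comm j, pow_mul,
        ZMod.pow_card_sub_one_eq_one hz0, one_pow]
    · rw [hf, PP_eval, hY, ← mul_assoc, inv_mul_cancel₀ hAE, one_mul]
  have h1' : Z.card ≤ n * T.card + 1 := by
    have := Finset.card_le_card (Finset.insert_erase_subset (0 : ZMod q) Z)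
    have h2 : Z.card ≤ (Z.erase 0).card + 1 := by
      have h3 := Finset.pred_card_le_card_erase (a := (0 : ZMod q)) (s := Z)
      omega
    omega
  -- step 2
  have h2 : 2 * T.card ≤ U.card + 1 := by
    refine card_invol (fun y => f.eval y) (fun y => -E - y) ?_ (-E / 2) ?_ U T ?_ ?_
    · intro y
      have hodd : Odd p := hpp.odd_of_ne_two (by omega)
      show f.eval (-E - y) = f.eval y
      rw [hf, PP_eval, PP_eval]
      have e1 : (-E - y + E) = -y := by ring
      have e2 : (-E - y) = -(y + E) := by ring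
      rw [e1, e2, hodd.neg_pow, hodd.neg_pow]
      ring
    · intro y hy
      have hy' : -E - y = y := hy
      have : y * 2 = -E := by linear_combination -hy'
      rw [eq_div_iff hq2]
      exact this
    · intro y hy
      rw [hT, Finset.mem_filter] at hy
      rw [hU, Finset.mem_filter]
      exact ⟨Finset.mem_univ _, hy.2.1⟩
    · intro w hw
      rw [hT, Finset.mem_filter] at hw
      exact hw.2.2
  rw [hZcard]
  have hn0 : (0 : ℝ) < n := by exact_mod_cast hn1
  have hnR : (1 : ℝ) ≤ n := by exact_mod_cast hn1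
  have hkR : (1 : ℝ) ≤ k := by exact_mod_cast hk
  have hpR : (1 : ℝ) ≤ p := by exact_mod_cast (by omega : 1 ≤ p)
  have hnkR : (n : ℝ) ≤ k := by exact_mod_cast hnk
  have hs1 : (1 : ℝ) ≤ Real.sqrt q := by
    rw [Real.one_le_sqrt]
    exact_mod_cast hqp.one_lt.le
  have a1 : (Z.card : ℝ) ≤ n * T.card + 1 := by exact_mod_cast h1'
  have a2 : 2 * (T.card : ℝ) ≤ U.card + 1 := by exact_mod_cast h2
  have hpk : (1 : ℝ) ≤ (p : ℝ) * k := by nlinarith
  have hnp : ((n : ℝ) * p) ^ C ≤ ((p : ℝ) * k) ^ C := by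
    refine Real.rpow_le_rpow (by positivity) ?_ (by linarith)
    rw [mul_comm]
    exact mul_le_mul_of_nonneg_left hnkR (by linarith)
  set B : ℝ := ((p : ℝ) * k) ^ C with hB
  have hB1 : (1 : ℝ) ≤ B := Real.one_le_rpow hpk (by linarith)
  have hnB : (n : ℝ) * B ≤ ((p : ℝ) * k) ^ (C + 1) := by
    rw [Real.rpow_add (by linarith), Real.rpow_one, mul_comm]
    refine mul_le_mul_of_nonneg_left ?_ (by linarith)
    nlinarith
  have hC2 : ((p : ℝ) * k) ^ (C + 1) ≤ ((p : ℝ) * k) ^ (C + 2) :=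
    Real.rpow_le_rpow_of_exponent_le hpk (by linarith)
  set s : ℝ := Real.sqrt q with hs
  have b1 : (U.card : ℝ) ≤ q / n + C * B * s := by
    refine hSTP.trans ?_
    have : C * ((n : ℝ) * p) ^ C * s ≤ C * B * s := by
      refine mul_le_mul_of_nonneg_right ?_ (by linarith)
      exact mul_le_mul_of_nonneg_left hnp (by linarith)
    linarith
  have b2 : (n : ℝ) * T.card ≤ q / 2 + (n / 2) * (C * B * s) + n / 2 := by
    have h5 : (T.card : ℝ) ≤ (q / n + C * B * s + 1) / 2 := by linarith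
    have h6 : (n : ℝ) * T.card ≤ n * ((q / n + C * B * s + 1) / 2) :=
      mul_le_mul_of_nonneg_left h5 hn0.le
    have h7 : (n : ℝ) * ((q / n + C * B * s + 1) / 2) = q / 2 + (n / 2) * (C * B * s) + n / 2 := by
      field_simp
    linarith
  have b3 : (n / 2 : ℝ) * (C * B * s) + n / 2 + 1 ≤ (C + 2) * ((p : ℝ) * k) ^ (C + 2) * s := by
    have hnB' : (n : ℝ) * B ≤ ((p : ℝ) * k) ^ (C + 2) := hnB.trans hC2
    have hnB1 : (n : ℝ) ≤ n * B := by nlinarith
    set W : ℝ := ((p : ℝ) * k) ^ (C + 2) with hW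
    have hW1 : (1 : ℝ) ≤ W := by nlinarith
    have hWs : W ≤ W * s := by nlinarith
    have c1 : (n / 2 : ℝ) * (C * B * s) ≤ C * W * s := by
      have : (n / 2 : ℝ) * (C * B * s) = (C * s / 2) * (n * B) := by ring
      rw [this]
      have h8 : (C * s / 2) * (n * B) ≤ (C * s / 2) * W :=
        mul_le_mul_of_nonneg_left hnB' (by positivity)
      have h9 : 0 ≤ C * s * W := by positivity
      nlinarith
    have c2 : (n : ℝ) / 2 ≤ W * s := by
      have : (n : ℝ) ≤ W := by linarith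
      linarith
    have c3 : (1 : ℝ) ≤ W * s := by linarith
    have : (C + 2) * W * s = C * W * s + W * s + W * s := by ring
    linarith
  linarith

end Pool.Agent.Work.MP_2738db_nt_ZZ.helper92
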