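import Pool.Agent.Work.MP_2738db_nt_ZZ.Interface

set_option autoImplicit false

namespace Pool.Agent.Work.MP_2738db_nt_ZZ.helper92

open Finset Polynomial

/-- degree of a determinant, by columns -/
lemma natDegree_det_le {F : Type*} [CommRing F] {ι : Type*} [Fintype ι] [DecidableEq ι]
    (M : Matrix ι ι F[X]) (c : ι → ℕ) (h : ∀ i j, (M i j).natDegree ≤ c j) :
    M.det.natDegree ≤ ∑ j, c j := by
  rw [Matrix.det_apply]
  refine natDegree_sum_le_of_forall_le _ _ ?_
  intro σ _
  have h1 : (∏ i, M (σ i) i).natDegree ≤ ∑ j, c j :=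
    (natDegree_prod_le _ _).trans (Finset.sum_le_sum (fun j _ => h _ _))
  rcases Int.units_eq_one_or (Equiv.Perm.sign σ) with h2 | h2
  · rw [h2, one_smul]; exact h1
  · rw [h2, Units.neg_smul, one_smul, natDegree_neg]; exact h1

/-- degree of a resultant of polynomials whose coefficients are polynomials -/
lemma natDegree_resultant_le {F : Type*} [CommRing F] (A B : F[X][X]) (m n d D : ℕ)
    (hA : ∀ k, (A.coeff k).natDegree ≤ D) (hB : ∀ k, (B.coeff k).natDegree ≤ d) :
    (resultant A B m n).natDegree ≤ m * d + n * D := by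
  unfold resultant
  have h1 := natDegree_det_le (sylvester A B m n)
    (fun j => Fin.addCases (motive := fun _ => ℕ) (fun _ => d) (fun _ => D) j) ?_
  · refine h1.trans (le_of_eq ?_)
    rw [Fin.sum_univ_add]
    simp
  · intro i j
    induction j using Fin.addCases with
    | left j =>
      simp only [sylvester, Matrix.of_apply, Fin.addCases_left]
      split_ifs
      · exact hB _
      · simp
    | right j =>
      simp only [sylvester, Matrix.of_apply, Fin.addCases_right]
      split_ifs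
      · exact hA _
      · simp

section
variable {q : ℕ} [Fact q.Prime]

theorem pow_q_mod (f : (ZMod q)[X]) : (X : (ZMod q)[X]) ^ q ∣ f ^ q - C (f.eval 0) := by
  have h1 : f ^ q = expand (ZMod q) q f := (ZMod.expand_card f).symm
  have h2 : (X : (ZMod q)[X]) ∣ f - C (f.eval 0) := by
    rw [X_dvd_iff, coeff_sub, coeff_C_zero, coeff_zero_eq_eval_zero, sub_self]
  obtain ⟨g, hg⟩ := h2
  have h3 : f = X * g + C (f.eval 0) := by rw [← hg]; ring
  rw [h1]
  conv_lhs => rw [← one_mul (X ^ q)]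
  have h4 : expand (ZMod q) q f = X ^ q * expand (ZMod q) q g + C (f.eval 0) := by
    conv_lhs => rw [h3]
    rw [map_add, map_mul, expand_X, expand_C]
  rw [h4, one_mul, add_sub_cancel_right]
  exact dvd_mul_right _ _

/-- `T ^ n - c` is irreducible when a prime divides `c` exactly once -/
lemma irred_X_pow (n : ℕ) (hn : 1 ≤ n) (c π : (ZMod q)[X]) (hπ : Irreducible π) (h1 : π ∣ c)
    (h2 : ¬ π ^ 2 ∣ c) : Irreducible ((X : (ZMod q)[X][X]) ^ n - C c) := by
  have hn0 : n ≠ 0 := by omega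
  have hP : (Ideal.span {π}).IsPrime := (Ideal.span_singleton_prime hπ.ne_zero).2 hπ.prime
  have hmon : ((X : (ZMod q)[X][X]) ^ n - C c).Monic := monic_X_pow_sub_C c hn0
  refine irreducible_of_eisenstein_criterion hP ?_ ?_ ?_ ?_ hmon.isPrimitive
  · rw [hmon.leadingCoeff]
    exact fun h => hP.ne_top ((Ideal.eq_top_iff_one _).2 h)
  · intro k hk
    rw [degree_X_pow_sub_C (by omega) c] at hk
    have hk' : k < n := by exact_mod_cast hk
    rw [coeff_sub, coeff_X_pow, if_neg (by omega), coeff_C, zero_sub]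
    split_ifs
    · exact neg_mem (Ideal.mem_span_singleton.2 h1)
    · rw [neg_zero]; exact zero_mem _
  · rw [degree_X_pow_sub_C (by omega) c]
    exact_mod_cast hn
  · rw [coeff_sub, coeff_X_pow, if_neg (by omega), coeff_C_zero, zero_sub,
      Ideal.span_singleton_pow, Ideal.mem_span_singleton, dvd_neg]
    exact h2

/-- the resultant does not vanish -/
lemma resultant_ne (n : ℕ) (hn : 1 ≤ n) (c π : (ZMod q)[X]) (hπ : Irreducible π) (h1 : π ∣ c)
    (h2 : ¬ π ^ 2 ∣ c) (B : (ZMod q)[X][X]) (hB : B ≠ 0) (hBn : B.natDegree ≤ n - 1) :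
    resultant B ((X : (ZMod q)[X][X]) ^ n - C c) (n - 1) n ≠ 0 := by
  have hn0 : n ≠ 0 := by omega
  set Q : (ZMod q)[X][X] := (X : (ZMod q)[X][X]) ^ n - C c with hQ
  have hmon : Q.Monic := monic_X_pow_sub_C c hn0
  have hdeg : Q.natDegree = n := natDegree_X_pow_sub_C
  have hirr := irred_X_pow n hn c π hπ h1 h2
  let φ := algebraMap (ZMod q)[X] (FractionRing (ZMod q)[X])
  have hinj : Function.Injective φ := IsFractionRing.injective _ _
  have hirrK : Irreducible (Q.map φ) :=
    (hmon.irreducible_iff_irreducible_map_fraction_map).1 hirr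
  have hBK : B.map φ ≠ 0 := (Polynomial.map_ne_zero_iff hinj).2 hB
  have hcop : IsCoprime (B.map φ) (Q.map φ) := by
    refine IsCoprime.symm ?_
    rw [hirrK.coprime_iff_not_dvd]
    intro h
    have h3 := natDegree_le_of_dvd h hBK
    rw [natDegree_map_eq_of_injective hinj, natDegree_map_eq_of_injective hinj, hdeg] at h3
    omega
  have h4 := resultant_ne_zero _ _ hcop
  rw [natDegree_map_eq_of_injective hinj, natDegree_map_eq_of_injective hinj,
    resultant_map_map] at h4
  have h5 : resultant B Q B.natDegree Q.natDegree ≠ 0 := by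
    intro h
    rw [h, map_zero] at h4
    exact h4 rfl
  obtain ⟨k, hk⟩ := Nat.exists_eq_add_of_le hBn
  rw [hk, resultant_add_left_deg _ _ _ _ _ le_rfl]
  rw [hdeg] at h5
  have h6 : Q.coeff n = 1 := by
    have := hmon.coeff_natDegree
    rwa [hdeg] at this
  rw [h6, one_pow, mul_one]
  exact mul_ne_zero (pow_ne_zero _ (by simp)) h5

end

/-- **STA** -/
theorem sta : Stmt_Sta := by
  intro q n m d D hq f hn hnm hd hf0 hπ hD a ha hdvd
  obtain ⟨π, hπ, hπ1, hπ2⟩ := hπ
  have hf : f ≠ 0 := by rintro rfl; simp at hf0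
  set κ : ZMod q := f.eval 0 with hκ
  -- c = κ⁻¹ f
  set c : (ZMod q)[X] := C κ⁻¹ * f with hc
  have hCu : IsUnit (C κ⁻¹ : (ZMod q)[X]) := isUnit_C.2 (isUnit_iff_ne_zero.2 (inv_ne_zero hf0))
  have hc1 : π ∣ c := Dvd.dvd.mul_left hπ1 _
  have hc2 : ¬ π ^ 2 ∣ c := by
    intro h
    exact hπ2 ((hCu.dvd_mul_left).1 h)
  set B : (ZMod q)[X][X] := ∑ i : Fin n, C (a i) * X ^ (n - 1 - (i : ℕ)) with hB
  have hcoeff : ∀ k, B.coeff k = ∑ i : Fin n, if k = n - 1 - (i : ℕ) then a i else 0 := by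
    intro k
    rw [hB, finsetSum_coeff]
    refine Finset.sum_congr rfl (fun i _ => ?_)
    rw [coeff_C_mul_X_pow]
  have hcoeffi : ∀ i : Fin n, B.coeff (n - 1 - (i : ℕ)) = a i := by
    intro i
    rw [hcoeff, Finset.sum_eq_single i]
    · rw [if_pos rfl]
    · intro j _ hj
      rw [if_neg]
      intro h
      apply hj
      have := i.2
      have := j.2
      exact Fin.ext (by omega)
    · intro h; exact absurd (Finset.mem_univ _) h
  by_contra hcon
  have hBne : B ≠ 0 := by
    intro h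
    apply hcon
    intro i
    rw [← hcoeffi i, h, coeff_zero]
  have hBn : B.natDegree ≤ n - 1 := by
    rw [hB]
    refine natDegree_sum_le_of_forall_le _ _ ?_
    intro i _
    exact (natDegree_C_mul_X_pow_le _ _).trans (Nat.sub_le _ _)
  set Q : (ZMod q)[X][X] := (X : (ZMod q)[X][X]) ^ n - C c with hQ
  have hres := resultant_ne n hn c π hπ hc1 hc2 B hBne hBn
  rw [← hQ] at hres
  -- degree
  have hcd : c.natDegree ≤ d := (natDegree_C_mul_le _ _).trans hd
  have hdegr : (resultant B Q (n - 1) n).natDegree ≤ (n - 1) * d + n * D := by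
    refine natDegree_resultant_le B Q (n - 1) n d D ?_ ?_
    · intro k
      rw [hcoeff]
      refine natDegree_sum_le_of_forall_le _ _ ?_
      intro i _
      split_ifs
      · exact ha i
      · simp
    · intro k
      rw [hQ, coeff_sub, coeff_X_pow, coeff_C]
      refine (natDegree_sub_le _ _).trans (max_le ?_ ?_)
      · split_ifs <;> simp
      · split_ifs
        · exact hcd
        · simp
  -- divisibility
  obtain ⟨P1, P2, _, _, hP⟩ := exists_mul_add_mul_eq_C_resultant (m := n - 1) (n := n) B Q hBn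
    (le_of_eq (by rw [hQ]; exact natDegree_X_pow_sub_C)) (Or.inr (by omega))
  set g : (ZMod q)[X] := f ^ m with hg
  set h : (ZMod q)[X] := C κ⁻¹ * f ^ (1 + m * (n - 1)) with hh
  obtain ⟨n', rfl⟩ : ∃ n', n = n' + 1 := ⟨n - 1, by omega⟩
  simp only [Nat.add_sub_cancel] at *
  have hfq := pow_q_mod f
  rw [← hκ] at hfq
  have hκc : (C κ⁻¹ : (ZMod q)[X]) * C κ = 1 := by
    rw [← C_mul, inv_mul_cancel₀ hf0, C_1]
  -- h g = 1
  have hhg : (X : (ZMod q)[X]) ^ q ∣ h * g - 1 := by
    have e : h * g - 1 = C κ⁻¹ * (f ^ q - C κ) := by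
      rw [mul_sub, hκc, hh, hg, mul_assoc, ← pow_add]
      congr 3
      rw [← hnm]; ring
    rw [e]
    exact Dvd.dvd.mul_left hfq _
  -- h ^ n = c
  have hhn : (X : (ZMod q)[X]) ^ q ∣ h ^ (n' + 1) - c := by
    have e1 : h ^ (n' + 1) = C κ⁻¹ * f * ((C κ⁻¹) ^ n' * (f ^ q) ^ n') := by
      rw [hh, mul_pow, ← pow_mul, ← pow_mul, pow_succ]
      have : (1 + m * n') * (n' + 1) = 1 + q * n' := by rw [← hnm]; ring
      rw [this, pow_add, pow_one]
      ring
    have e2 : h ^ (n' + 1) - c = C κ⁻¹ * f * (C κ⁻¹) ^ n' * ((f ^ q) ^ n' - (C κ) ^ n') := by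
      rw [e1, hc]
      have : (C κ⁻¹ : (ZMod q)[X]) ^ n' * (C κ) ^ n' = 1 := by
        rw [← mul_pow, hκc, one_pow]
      linear_combination (C κ⁻¹ * f) * this
    rw [e2]
    exact Dvd.dvd.mul_left (hfq.trans (sub_dvd_pow_sub_pow _ _ _)) _
  have hQh : (X : (ZMod q)[X]) ^ q ∣ Q.eval h := by
    rw [hQ, eval_sub, eval_pow, eval_X, eval_C]
    exact hhn
  have hBh : (X : (ZMod q)[X]) ^ q ∣ B.eval h := by
    have e : B.eval h = h ^ n' * (∑ i : Fin (n' + 1), a i * f ^ ((i : ℕ) * m)) -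
        ∑ i : Fin (n' + 1), a i * h ^ (n' - (i : ℕ)) * ((h * g) ^ (i : ℕ) - 1 ^ (i : ℕ)) := by
      rw [hB, eval_finsetSum, Finset.mul_sum, ← Finset.sum_sub_distrib]
      refine Finset.sum_congr rfl (fun i _ => ?_)
      rw [eval_mul, eval_C, eval_pow, eval_X]
      have hi : (i : ℕ) ≤ n' := Nat.lt_succ_iff.1 i.2
      have e1 : h ^ n' = h ^ (n' - (i : ℕ)) * h ^ (i : ℕ) := by
        rw [← pow_add]; congr 1; omega
      have e2 : f ^ ((i : ℕ) * m) = g ^ (i : ℕ) := by
        rw [hg, ← pow_mul, mul_comm]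
      rw [e1, e2, mul_pow, one_pow]
      ring
    rw [e]
    refine dvd_sub (Dvd.dvd.mul_left hdvd _) (Finset.dvd_sum (fun i _ => ?_))
    exact Dvd.dvd.mul_left (hhg.trans (sub_dvd_pow_sub_pow _ _ _)) _
  have hX : (X : (ZMod q)[X]) ^ q ∣ resultant B Q n' (n' + 1) := by
    have e := congrArg (fun p : (ZMod q)[X][X] => p.eval h) hP
    simp only [eval_add, eval_mul, eval_C] at e
    rw [← e]
    exact dvd_add (Dvd.dvd.mul_right hBh _) (Dvd.dvd.mul_right hQh _)
  have hfin := natDegree_le_of_dvd hX hres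
  rw [natDegree_X_pow] at hfin
  omega

end Pool.Agent.Work.MP_2738db_nt_ZZ.helper92
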